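import Mathlib

set_option autoImplicit false

/-! # A lower bound for binomial probabilities -/

open Filter
open scoped Topology

namespace Pool.Agent.N909.SQ

/-- the rate -/
noncomputable def rate (c v : ℝ) : ℝ := v * Real.log (2 * v / c) - v + c / 2

lemma fact_up (k : ℕ) (hk : 1 ≤ k) : (k.factorial : ℝ) ≤ (k : ℝ) ^ (k + 1) * Real.exp (1 - k) := by
  induction k, hk using Nat.le_induction with
  | base => norm_num
  | succ k hk ih =>
    have hk0 : (0 : ℝ) < k := by exact_mod_cast hk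
    have h1 : ((k : ℝ) / (k + 1)) ^ (k + 1) ≤ Real.exp (-1) := by
      have h2 : (k : ℝ) / (k + 1) ≤ Real.exp (-(1 / ((k : ℝ) + 1))) := by
        have h3 := Real.one_sub_le_exp_neg (1 / ((k : ℝ) + 1))
        refine le_trans (le_of_eq ?_) h3
        field_simp
        ring
      calc ((k : ℝ) / (k + 1)) ^ (k + 1) ≤ (Real.exp (-(1 / ((k : ℝ) + 1)))) ^ (k + 1) :=
            pow_le_pow_left₀ (by positivity) h2 _
        _ = Real.exp (-1) := by
          rw [← Real.exp_nat_mul]
          congr 1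
          push_cast
          field_simp
    rw [div_pow, div_le_iff₀ (by positivity)] at h1
    rw [Nat.factorial_succ]
    push_cast
    calc ((k : ℝ) + 1) * k.factorial ≤ (k + 1) * ((k : ℝ) ^ (k + 1) * Real.exp (1 - k)) := by gcongr
      _ ≤ (k + 1) * ((Real.exp (-1) * ((k : ℝ) + 1) ^ (k + 1)) * Real.exp (1 - k)) := by gcongr
      _ = ((k : ℝ) + 1) ^ (k + 1 + 1) * Real.exp (1 - (k + 1)) := by
        have : Real.exp (1 - ((k : ℝ) + 1)) = Real.exp (-1) * Real.exp (1 - k) := by
          rw [← Real.exp_add]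
          congr 1
          ring
        rw [this]
        ring

lemma pow_floor {a w : ℝ} (ha : 0 < a) {k : ℕ} (h1 : w - 1 ≤ k) (h2 : (k : ℝ) ≤ w) :
    Real.exp (w * Real.log a - |Real.log a|) ≤ a ^ k := by
  rw [← Real.rpow_natCast, Real.rpow_def_of_pos ha]
  apply Real.exp_le_exp.2
  rcases le_or_gt 0 (Real.log a) with h | h
  · rw [abs_of_nonneg h]
    nlinarith
  · rw [abs_of_neg h]
    nlinarith

lemma choose_delta (c v : ℝ) (hJ : rate c v < 1) : ∃ δ : ℝ, 0 < δ ∧ δ ≤ 1 / 2 ∧
    c / 2 * (1 + δ) ^ 2 - v + v * Real.log (2 * v / c) - 3 * v * Real.log (1 - δ) < 1 := by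
  have h1 : Tendsto (fun δ : ℝ => c / 2 * (1 + δ) ^ 2 - v + v * Real.log (2 * v / c) - 3 * v * Real.log (1 - δ))
      (𝓝 0) (𝓝 (rate c v)) := by
    have h2 : ContinuousAt (fun δ : ℝ => c / 2 * (1 + δ) ^ 2 - v + v * Real.log (2 * v / c) - 3 * v * Real.log (1 - δ)) 0 := by
      have : ContinuousAt (fun δ : ℝ => Real.log (1 - δ)) 0 := by
        apply ContinuousAt.log
        · fun_prop
        · norm_num
      fun_prop
    have h3 := h2.tendsto
    have h4 : c / 2 * (1 + 0) ^ 2 - v + v * Real.log (2 * v / c) - 3 * v * Real.log (1 - 0) = rate c v := by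
      unfold rate
      rw [sub_zero, Real.log_one]
      ring
    rwa [h4] at h3
  have h2 := (h1.mono_left nhdsWithin_le_nhds : Tendsto _ (𝓝[>] (0:ℝ)) _).eventually (gt_mem_nhds hJ)
  have h3 : ∀ᶠ δ : ℝ in 𝓝[>] (0:ℝ), δ ≤ 1 / 2 := by
    filter_upwards [Ioo_mem_nhdsGT (show (0:ℝ) < 1 / 2 by norm_num)] with δ h
    exact h.2.le
  obtain ⟨δ, g1, g2, g3⟩ := (h2.and (h3.and self_mem_nhdsWithin)).exists
  exact ⟨δ, g3, g2, g1⟩

/-- the lower bound -/
lemma prob_low (c v : ℝ) (hc : 0 < c) (hv : 0 < v) (hJ : rate c v < 1) : ∃ δ : ℝ, 0 < δ ∧ δ ≤ 1 / 2 ∧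
    ∀ᶠ z : ℝ in atTop, ∀ H k : ℕ, c * z ^ 2 - 1 ≤ H → (H : ℝ) ≤ c * z ^ 2 → v * z - 1 ≤ k → (k : ℝ) ≤ v * z →
      k ≤ H ∧ Real.exp (-z) ≤ (H.choose k : ℝ) * ((1 - δ) / (2 * z + 1)) ^ k * (1 - (1 + δ) / (2 * z)) ^ (H - k) := by
  obtain ⟨δ, hδ0, hδ1, hE⟩ := choose_delta c v hJ
  refine ⟨δ, hδ0, hδ1, ?_⟩
  set E := c / 2 * (1 + δ) ^ 2 - v + v * Real.log (2 * v / c) - 3 * v * Real.log (1 - δ) with hEd
  set q := (1 - δ) ^ 3 * c / (2 * v) with hq
  have hd1 : 0 < 1 - δ := by linarith
  have hq0 : 0 < q := by rw [hq]; positivity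
  have hqe : 0 < q * Real.exp 1 := by positivity
  have hlogq : v * Real.log (q * Real.exp 1) = v + 3 * v * Real.log (1 - δ) - v * Real.log (2 * v / c) := by
    rw [Real.log_mul hq0.ne' (Real.exp_pos 1).ne', Real.log_exp]
    have : Real.log q = 3 * Real.log (1 - δ) - Real.log (2 * v / c) := by
      have e1 : q = (1 - δ) ^ 3 / (2 * v / c) := by
        rw [hq]
        field_simp
      rw [e1, Real.log_div (by positivity) (by positivity), Real.log_pow]
      push_cast
      ring
    rw [this]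
    ring
  have hlim : ∀ᶠ z : ℝ in atTop, |Real.log (q * Real.exp 1)| + 1 + Real.log (v * z) ≤ (1 - E) * z := by
    have h1 : Tendsto (fun z : ℝ => Real.log (v * z) / z) atTop (𝓝 0) := by
      have h2 : (fun z : ℝ => Real.log (v * z) / z) =ᶠ[atTop] fun z => Real.log v * z⁻¹ + Real.log z / z := by
        filter_upwards [eventually_gt_atTop 0] with z hz
        rw [Real.log_mul hv.ne' hz.ne']
        field_simp
      rw [tendsto_congr' h2]
      have h3 : Tendsto (fun z : ℝ => Real.log z / z) atTop (𝓝 0) := Real.isLittleO_log_id_atTop.tendsto_div_nhds_zero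
      have h4 : Tendsto (fun z : ℝ => Real.log v * z⁻¹) atTop (𝓝 (Real.log v * 0)) :=
        tendsto_const_nhds.mul tendsto_inv_atTop_zero
      have h5 := h4.add h3
      rwa [mul_zero, add_zero] at h5
    have h2 : 0 < (1 - E) / 2 := by linarith
    filter_upwards [h1.eventually (gt_mem_nhds h2), eventually_gt_atTop 0,
      eventually_ge_atTop ((|Real.log (q * Real.exp 1)| + 1) / ((1 - E) / 2))] with z g1 g2 g3
    rw [div_lt_iff₀ g2] at g1
    rw [div_le_iff₀ h2] at g3
    linarith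
  filter_upwards [hlim, eventually_ge_atTop (v / (δ * c)), eventually_ge_atTop (1 / δ), eventually_ge_atTop (2 / v),
    eventually_ge_atTop ((1 + δ) ^ 2 / δ), eventually_ge_atTop 1, eventually_ge_atTop ((v + 1) / c)]
    with z g1 g2 g3 g4 g5 g6 g7 H k a1 a2 a3 a4
  have hz0 : 0 < z := by linarith
  have b2 : v * z ≤ δ * c * z ^ 2 := by
    rw [div_le_iff₀ (by positivity)] at g2
    nlinarith
  have b3 : 1 ≤ δ * z := by
    rw [div_le_iff₀ hδ0] at g3
    linarith
  have b4 : 2 ≤ v * z := by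
    rw [div_le_iff₀ hv] at g4
    linarith
  have b7 : v * z + 1 ≤ c * z ^ 2 := by
    rw [div_le_iff₀ hc] at g7
    nlinarith
  have hk1 : 1 ≤ k := by
    have : (1 : ℝ) ≤ k := by linarith
    exact_mod_cast this
  have hkH : k ≤ H := by
    have : (k : ℝ) ≤ H := by linarith
    exact_mod_cast this
  refine ⟨hkH, ?_⟩
  have hk0 : (0 : ℝ) < k := by exact_mod_cast hk1
  -- the binomial coefficient
  have c1 : (1 - δ) * c * z ^ 2 ≤ ((H + 1 - k : ℕ) : ℝ) := by
    rw [Nat.cast_sub (by omega)]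
    push_cast
    nlinarith
  have c2 : ((H + 1 - k : ℕ) : ℝ) ^ k ≤ k.factorial * H.choose k := by
    have := Nat.pow_le_choose (α := ℝ) k H
    rw [div_le_iff₀ (by positivity)] at this
    rw [mul_comm] at this
    exact_mod_cast this
  have c3 : (1 - δ) ^ 2 / (2 * z) ≤ (1 - δ) / (2 * z + 1) := by
    rw [div_le_div_iff₀ (by positivity) (by positivity)]
    nlinarith
  have c4 : (q * (v * z)) ^ k ≤ k.factorial * H.choose k * ((1 - δ) / (2 * z + 1)) ^ k := by
    have e1 : q * (v * z) = ((1 - δ) * c * z ^ 2) * ((1 - δ) ^ 2 / (2 * z)) := by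
      rw [hq]
      field_simp
    calc (q * (v * z)) ^ k ≤ (((H + 1 - k : ℕ) : ℝ) * ((1 - δ) / (2 * z + 1))) ^ k := by
          rw [e1]
          apply pow_le_pow_left₀ (by positivity)
          apply mul_le_mul c1 c3 (by positivity) (Nat.cast_nonneg _)
      _ = ((H + 1 - k : ℕ) : ℝ) ^ k * ((1 - δ) / (2 * z + 1)) ^ k := mul_pow _ _ _
      _ ≤ _ := by
        apply mul_le_mul_of_nonneg_right c2
        positivity
  have c5 : (k.factorial : ℝ) ≤ k * (v * z) ^ k * Real.exp (1 - k) := by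
    refine (fact_up k hk1).trans ?_
    rw [pow_succ]
    have : (k : ℝ) ^ k ≤ (v * z) ^ k := pow_le_pow_left₀ hk0.le a4 k
    calc (k : ℝ) ^ k * k * Real.exp (1 - k) ≤ (v * z) ^ k * k * Real.exp (1 - k) := by gcongr
      _ = _ := by ring
  have c6 : (q * Real.exp 1) ^ k / (k * Real.exp 1) ≤ (H.choose k : ℝ) * ((1 - δ) / (2 * z + 1)) ^ k := by
    set X := (H.choose k : ℝ) * ((1 - δ) / (2 * z + 1)) ^ k with hX
    have hX0 : 0 ≤ X := by positivity
    have d1 : (q * (v * z)) ^ k ≤ k.factorial * X := by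
      rw [hX]
      calc _ ≤ _ := c4
        _ = _ := by ring
    have d2 : (q * (v * z)) ^ k ≤ (k * (v * z) ^ k * Real.exp (1 - k)) * X :=
      d1.trans (mul_le_mul_of_nonneg_right c5 hX0)
    rw [mul_pow] at d2
    have hvz : 0 < (v * z) ^ k := by positivity
    have d3 : q ^ k ≤ k * Real.exp (1 - k) * X := by
      have : (v * z) ^ k * q ^ k ≤ (v * z) ^ k * (k * Real.exp (1 - k) * X) := by linarith
      exact le_of_mul_le_mul_left this hvz
    rw [div_le_iff₀ (by positivity), mul_pow]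
    have e2 : Real.exp 1 ^ k = Real.exp k := by
      rw [← Real.exp_nat_mul, mul_one]
    rw [e2]
    calc q ^ k * Real.exp k ≤ (k * Real.exp (1 - k) * X) * Real.exp k := by gcongr
      _ = X * (k * Real.exp 1) := by
        have : Real.exp (1 - (k : ℝ)) * Real.exp k = Real.exp 1 := by
          rw [← Real.exp_add]
          congr 1
          ring
        calc (k * Real.exp (1 - k) * X) * Real.exp k = k * X * (Real.exp (1 - k) * Real.exp k) := by ring
          _ = _ := by rw [this]; ring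
  -- the empty part
  set u := (1 + δ) / (2 * z) with hu
  have hu0 : 0 < u := by rw [hu]; positivity
  have b5 : (1 + δ) ^ 2 ≤ δ * z := by
    rw [div_le_iff₀ hδ0] at g5
    linarith
  have hu1 : u * (1 + δ) ≤ δ := by
    rw [hu, div_mul_eq_mul_div, div_le_iff₀ (by positivity)]
    nlinarith
  have hu2 : 0 < 1 - u := by nlinarith
  have c7 : Real.exp (-((1 + δ) * u)) ≤ 1 - u := by
    have h1 := Real.one_sub_inv_le_log_of_pos hu2
    have h2 : -((1 + δ) * u) ≤ 1 - (1 - u)⁻¹ := by
      have : (1 - u)⁻¹ ≤ 1 + (1 + δ) * u := by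
        rw [inv_le_iff_one_le_mul₀ hu2]
        nlinarith
      linarith
    calc Real.exp (-((1 + δ) * u)) ≤ Real.exp (Real.log (1 - u)) := Real.exp_le_exp.2 (h2.trans h1)
      _ = 1 - u := Real.exp_log hu2
  have c8 : Real.exp (-(c / 2 * (1 + δ) ^ 2 * z)) ≤ (1 - u) ^ (H - k) := by
    calc Real.exp (-(c / 2 * (1 + δ) ^ 2 * z)) ≤ Real.exp (-((1 + δ) * u)) ^ H := by
          rw [← Real.exp_nat_mul]
          apply Real.exp_le_exp.2
          have : (H : ℝ) * ((1 + δ) * u) ≤ c * z ^ 2 * ((1 + δ) * u) := by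
            apply mul_le_mul_of_nonneg_right a2
            positivity
          have e3 : c * z ^ 2 * ((1 + δ) * u) = c / 2 * (1 + δ) ^ 2 * z := by
            rw [hu]
            field_simp
          linarith
      _ ≤ (1 - u) ^ H := pow_le_pow_left₀ (Real.exp_pos _).le c7 H
      _ ≤ (1 - u) ^ (H - k) := pow_le_pow_of_le_one hu2.le (by linarith) (Nat.sub_le _ _)
  have c9 := pow_floor hqe a3 a4
  have c10 : Real.exp (-(1 + Real.log (v * z))) ≤ 1 / (k * Real.exp 1) := by
    rw [Real.exp_neg, Real.exp_add, Real.exp_log (by positivity), one_div]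
    apply inv_anti₀ (by positivity)
    have : (k : ℝ) * Real.exp 1 ≤ v * z * Real.exp 1 := mul_le_mul_of_nonneg_right a4 (Real.exp_pos 1).le
    linarith
  calc Real.exp (-z) ≤ Real.exp (v * z * Real.log (q * Real.exp 1) - |Real.log (q * Real.exp 1)|) *
        Real.exp (-(1 + Real.log (v * z))) * Real.exp (-(c / 2 * (1 + δ) ^ 2 * z)) := by
        rw [← Real.exp_add, ← Real.exp_add]
        apply Real.exp_le_exp.2
        have e4 : v * z * Real.log (q * Real.exp 1) = z * (v * Real.log (q * Real.exp 1)) := by ring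
        rw [e4, hlogq]
        have e5 : z * (v + 3 * v * Real.log (1 - δ) - v * Real.log (2 * v / c)) - c / 2 * (1 + δ) ^ 2 * z = -(E * z) := by
          rw [hEd]
          ring
        linarith
    _ ≤ (q * Real.exp 1) ^ k * (1 / (k * Real.exp 1)) * (1 - u) ^ (H - k) := by
        apply mul_le_mul _ c8 (Real.exp_pos _).le (by positivity)
        exact mul_le_mul c9 c10 (Real.exp_pos _).le (by positivity)
    _ ≤ _ := by
        apply mul_le_mul_of_nonneg_right _ (pow_nonneg hu2.le _)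
        rw [mul_one_div]
        exact c6

end Pool.Agent.N909.SQ
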