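import Mathlib
import Pool.Agent.N740.HK.Trials
import Pool.Agent.R528.RM.Tails
import Pool.Agent.R528.RM.Gold
import Pool.Agent.N909.SQ.Ana

set_option autoImplicit false
set_option linter.unusedSectionVars false

/-! # The number of chosen integers after a square -/

open MeasureTheory Filter Set
open scoped ENNReal Topology

namespace Pool.Agent.N909.SQ

open Pool.Agent.R528.RM Pool.Agent.N740.HK

variable {Ω : Type} {m0 : MeasurableSpace Ω} {μ : Measure Ω} [IsProbabilityMeasure μ]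
  {ℱ : Filtration ℕ m0} {A : ℕ → Set Ω}

lemma tendsto_log_nat : Tendsto (fun n : ℕ => Real.log n) atTop atTop :=
  Real.tendsto_log_atTop.comp tendsto_natCast_atTop_atTop

/-- exact counts occur infinitely often -/
theorem hits (hA : ∀ n, MeasurableSet[ℱ n] (A n))
    (hd : ∀ᵐ ω ∂μ, Tendsto (fun n : ℕ => dens μ ℱ A n ω * Real.log n) atTop (𝓝 1)) {c v : ℝ} (hc : 0 < c)
    (hv : 0 < v) (hJ : rate c v < 1) :
    ∀ᵐ ω ∂μ, ∃ᶠ n : ℕ in atTop, cnt A (n ^ 2) ⌊c * Real.log n ^ 2⌋₊ ω = ⌊v * Real.log n⌋₊ := by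
  obtain ⟨δ, hδ0, hδ1, hz⟩ := prob_low c v hc hv hJ
  set H : ℕ → ℕ := fun n => ⌊c * Real.log n ^ 2⌋₊ with hH
  set k : ℕ → ℕ := fun n => ⌊v * Real.log n⌋₊ with hk
  set U : ℕ → Set Ω := fun n => {ω | cnt A (n ^ 2) (H n) ω = k n} ∪ WV (VF μ ℱ A δ) (n ^ 2) (H n) with hU
  obtain ⟨n₀, hn₀⟩ := eventually_atTop.1 ((sq_facts hc).and (((tendsto_log_nat).eventually hz).and (eventually_ge_atTop 1)))
  set D : ℕ → Set Ω := fun n => if n₀ ≤ n then U n else ∅ with hD
  have hUm : ∀ n, MeasurableSet[ℱ (n ^ 2 + H n)] (U n) := fun n =>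
    MeasurableSet.union (cnt_meas hA _ _ _) (WV_meas (fun n => VF_meas δ n) _ _)
  have hs : Monotone (fun n : ℕ => n ^ 2) := fun a b hab => Nat.pow_le_pow_left hab 2
  have hDm : ∀ n, MeasurableSet[ℱ ((n + 1) ^ 2)] (D n) := by
    intro n
    simp only [hD]
    by_cases h : n₀ ≤ n
    · rw [if_pos h]
      exact ℱ.mono (hn₀ n h).1.2.2.2 _ (hUm n)
    · rw [if_neg h]
      exact @MeasurableSet.empty _ (ℱ ((n + 1) ^ 2))
  have hsum : Tendsto (fun n : ℕ => ∑ k ∈ Finset.range n, 1 / ((k : ℝ) + 1)) atTop atTop :=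
    Real.tendsto_sum_range_one_div_nat_succ_atTop
  have hio := trials_io (μ := μ) (ℱ := ℱ) hs hDm (p := fun k => 1 / ((k : ℝ) + 1)) (k₀ := n₀) (fun n hn C hC => by
    obtain ⟨⟨f1, f2, f3, f4⟩, f5, f6⟩ := hn₀ n hn
    have hn1 : (1 : ℝ) ≤ n := by exact_mod_cast f6
    have hn0 : (0 : ℝ) < n := by linarith
    set z := Real.log n with hzd
    have hz0 : 0 < z := by linarith
    have hL : Real.log ((n ^ 2 : ℕ) : ℝ) = 2 * z := f2
    have hfl1 : (H n : ℝ) ≤ c * z ^ 2 := Nat.floor_le (by positivity)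
    have hfl2 : c * z ^ 2 - 1 ≤ H n := (Nat.sub_one_lt_floor _).le
    have hfl3 : (k n : ℝ) ≤ v * z := Nat.floor_le (by positivity)
    have hfl4 : v * z - 1 ≤ k n := (Nat.sub_one_lt_floor _).le
    obtain ⟨g1, g2⟩ := f5 (H n) (k n) hfl2 hfl1 hfl4 hfl3
    simp only [hD, if_pos hn]
    have hbd : ∀ m, n ^ 2 ≤ m → m < n ^ 2 + H n → ∀ ω, ω ∉ VF μ ℱ A δ m →
        (1 - δ) / (2 * z + 1) ≤ dens μ ℱ A m ω ∧ dens μ ℱ A m ω ≤ (1 + δ) / (2 * z) := by
      intro m hm1 hm2 ω hω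
      have hm0 : (0 : ℝ) < m := by
        have : 0 < m := by nlinarith
        exact_mod_cast this
      refine VF_bounds (L := 2 * z) (by linarith) (by linarith) ?_ ?_ hω
      · rw [← hL]
        exact Real.log_le_log (by positivity) (by exact_mod_cast hm1)
      · rw [← hL]
        refine le_trans (Real.log_le_log hm0 ?_) f3
        exact_mod_cast hm2.le
    have h1 := cnt_ge (μ := μ) hA (V := VF μ ℱ A δ) (fun n => VF_meas δ n) (l := (1 - δ) / (2 * z + 1)) (u := (1 + δ) / (2 * z))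
      (div_nonneg (by linarith) (by linarith)) (by rw [div_le_one (by linarith)]; linarith)
      (by
        apply div_le_div₀ (by linarith) (by linarith) (by linarith) (by linarith)) (H n) (n ^ 2) hbd (k n) g1 C hC
    refine le_trans ?_ h1
    apply mul_le_mul_of_nonneg_right _ measureReal_nonneg
    refine le_trans ?_ g2
    rw [hzd, Real.exp_neg, Real.exp_log hn0, one_div]
    exact inv_anti₀ hn0 (by linarith)) hsum
  filter_upwards [hio, hd] with ω h1 h2
  obtain ⟨m₀, hm₀⟩ := no_VF h2 hδ0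
  rw [Filter.frequently_atTop]
  intro K
  obtain ⟨n, hn, hnD⟩ := h1 (max K (max m₀ (n₀ + 1)))
  have hn1 : K ≤ n := (le_max_left _ _).trans hn
  have hn2 : m₀ ≤ n := ((le_max_left _ _).trans (le_max_right _ _)).trans hn
  have hn3 : n₀ + 1 ≤ n := ((le_max_right _ _).trans (le_max_right _ _)).trans hn
  refine ⟨n, hn1, ?_⟩
  simp only [hD, if_pos (show n₀ ≤ n by omega)] at hnD
  rcases hnD with h3 | ⟨m, hm1, _, hm3⟩
  · exact h3
  · exfalso
    exact hm₀ m (by nlinarith) hm3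

/-- the tail events do not occur -/
theorem misses (hA : ∀ n, MeasurableSet[ℱ n] (A n))
    (hd : ∀ᵐ ω ∂μ, Tendsto (fun n : ℕ => dens μ ℱ A n ω * Real.log n) atTop (𝓝 1)) {c s : ℝ} (hc : 0 < c)
    (hs : 0 < s) (hI : 1 < c / 2 * II s) (S : ℕ → Set ℕ)
    (hS : ∀ n : ℕ, ∀ k ∈ S n, s ^ (s * (c / 2) * Real.log n) ≤ s ^ k) :
    ∀ᵐ ω ∂μ, ∀ᶠ n : ℕ in atTop, cnt A (n ^ 2) ⌊c * Real.log n ^ 2⌋₊ ω ∉ S n := by
  obtain ⟨δ, hδ0, hδ1, hδ⟩ : ∃ δ : ℝ, 0 < δ ∧ δ ≤ 1 ∧ 1 < c / 2 * (II s - δ * (s + 1)) := by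
    have hgap : 0 < c / 2 * II s - 1 := by linarith
    refine ⟨min 1 ((c / 2 * II s - 1) / (c * (s + 1))), lt_min one_pos (by positivity), min_le_left _ _, ?_⟩
    have h1 : min 1 ((c / 2 * II s - 1) / (c * (s + 1))) ≤ (c / 2 * II s - 1) / (c * (s + 1)) := min_le_right _ _
    have h2 : c / 2 * (min 1 ((c / 2 * II s - 1) / (c * (s + 1))) * (s + 1)) ≤
        c / 2 * ((c / 2 * II s - 1) / (c * (s + 1)) * (s + 1)) :=
      mul_le_mul_of_nonneg_left (mul_le_mul_of_nonneg_right h1 (by linarith)) (by linarith)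
    have h3 : c / 2 * ((c / 2 * II s - 1) / (c * (s + 1)) * (s + 1)) = (c / 2 * II s - 1) / 2 := by field_simp
    rw [mul_sub]
    linarith
  set β : ℝ := c / 2 * (II s - δ * (s + 1)) with hβ
  set H : ℕ → ℕ := fun n => ⌊c * Real.log n ^ 2⌋₊ with hH
  have hprob : ∀ᶠ n : ℕ in atTop, μ.real ({ω | cnt A (n ^ 2) (H n) ω ∈ S n} \ WV (VF μ ℱ A δ) (n ^ 2) (H n)) ≤
      Real.exp (c / 4 + (2 * s + 1)) * (1 / (n : ℝ) ^ β) := by
    filter_upwards [sq_facts hc, eventually_ge_atTop 1] with n hf hn1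
    obtain ⟨f1, f2, f3, f4⟩ := hf
    have hn1' : (1 : ℝ) ≤ n := by exact_mod_cast hn1
    have hn0 : (0 : ℝ) < n := by linarith
    set z := Real.log n with hzd
    have hL : Real.log ((n ^ 2 : ℕ) : ℝ) = 2 * z := f2
    have hz4 : 4 ≤ z := by linarith
    have hz0 : 0 < z := by linarith
    have hfl1 : (H n : ℝ) ≤ c * z ^ 2 := Nat.floor_le (by positivity)
    have hfl2 : c * z ^ 2 - 1 ≤ H n := (Nat.sub_one_lt_floor _).le
    have h1 := tail (μ := μ) hA (V := VF μ ℱ A δ) (fun n => VF_meas δ n) (l := (1 - δ) / (2 * z + 1)) (u := (1 + δ) / (2 * z))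
      (by rw [div_le_one (by linarith)]; linarith) (by positivity) (n ^ 2) (H n)
      (fun m hm1 hm2 ω hω => by
        have hm0 : (0 : ℝ) < m := by
          have : 0 < m := by nlinarith
          exact_mod_cast this
        refine VF_bounds (L := 2 * z) hδ1 (by linarith) ?_ ?_ hω
        · rw [← hL]
          exact Real.log_le_log (by positivity) (by exact_mod_cast hm1)
        · rw [← hL]
          refine le_trans (Real.log_le_log hm0 ?_) f3
          exact_mod_cast hm2.le) hs (S n) (hS n)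
    refine h1.trans ?_
    have h2 : (1 : ℝ) / (n : ℝ) ^ β = Real.exp (-(β * z)) := by
      rw [Real.rpow_def_of_pos hn0, ← hzd, one_div, ← Real.exp_neg]
      congr 1
      ring
    rw [h2, ← Real.exp_add, ← Real.exp_add]
    apply Real.exp_le_exp.2
    set co : ℝ := s * ((1 + δ) / (2 * z)) - (1 - δ) / (2 * z + 1) with hco
    have hco1 : |co| ≤ 2 * s + 1 := by
      have h3 : (1 + δ) / (2 * z) ≤ 2 := by
        rw [div_le_iff₀ (by linarith)]
        nlinarith
      have h4 : 0 ≤ (1 + δ) / (2 * z) := by positivity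
      have h5 : (1 - δ) / (2 * z + 1) ≤ 1 := by
        rw [div_le_one (by linarith)]
        linarith
      have h6 : 0 ≤ (1 - δ) / (2 * z + 1) := div_nonneg (by linarith) (by linarith)
      rw [hco, abs_le]
      constructor
      · nlinarith
      · nlinarith
    have hHc : H n * co ≤ c * z ^ 2 * co + |co| := by
      have h3 : |H n - c * z ^ 2| ≤ 1 := by
        rw [abs_le]
        constructor <;> linarith
      have h4 : (H n - c * z ^ 2) * co ≤ |co| := by
        calc (H n - c * z ^ 2) * co ≤ |(H n - c * z ^ 2) * co| := le_abs_self _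
          _ = |H n - c * z ^ 2| * |co| := abs_mul _ _
          _ ≤ 1 * |co| := mul_le_mul_of_nonneg_right h3 (abs_nonneg _)
          _ = |co| := one_mul _
      linarith
    have hmain : c * z ^ 2 * co ≤ c / 2 * z * (s - 1 + δ * (s + 1)) + c / 4 := by
      have h3 : c * z ^ 2 * co = c / 2 * z * (s * (1 + δ)) - c * (1 - δ) * (z ^ 2 / (2 * z + 1)) := by
        rw [hco]
        field_simp
      have h4 : z / 2 - 1 / 4 ≤ z ^ 2 / (2 * z + 1) := by
        rw [le_div_iff₀ (by linarith)]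
        nlinarith
      have h5 : c * (1 - δ) * (z / 2 - 1 / 4) ≤ c * (1 - δ) * (z ^ 2 / (2 * z + 1)) :=
        mul_le_mul_of_nonneg_left h4 (mul_nonneg hc.le (by linarith))
      rw [h3]
      nlinarith
    have hfin : -(s * (c / 2) * z * Real.log s) + c / 2 * z * (s - 1 + δ * (s + 1)) = -(β * z) := by
      rw [hβ, II]
      ring
    linarith
  have hbc := bc_real (μ := μ) (s := fun n => {ω | cnt A (n ^ 2) (H n) ω ∈ S n} \ WV (VF μ ℱ A δ) (n ^ 2) (H n))
    ((Real.summable_one_div_nat_rpow.2 hδ).mul_left (Real.exp (c / 4 + (2 * s + 1)))) hprob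
  filter_upwards [hbc, hd] with ω h1 h2
  obtain ⟨n₀, hn₀⟩ := no_VF h2 hδ0
  filter_upwards [h1, eventually_ge_atTop n₀] with n hx hxn hmem
  apply hx
  refine ⟨hmem, ?_⟩
  rintro ⟨m, hm1, _, hm3⟩
  exact hn₀ m (by nlinarith) hm3

end Pool.Agent.N909.SQ
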